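import Mathlib
import Pool.Agent.H85.SelDefs
import Pool.Agent.H85.SelIndepDefs
import Pool.Agent.H85.SelMain
import Pool.Agent.H85.SelMA
import Pool.Agent.H85.SelSuslin
import Pool.Agent.Lib.H94.SelTransfer
import Pool.Agent.Lib.H94.DiaDefs
import Pool.Agent.Lib.H94.DiaSuslin
import Pool.Agent.Lib.H30C.Models
import Pool.Agent.Lib.H30C.ZMA
import Pool.Agent.Lib.H96D.DiaModel

/-!
# The answers to Q1 and Q2: both are equivalent to the nonexistence of free Suslin trees

In ZFC, preservation of `S_1(D_Ω, D_Ω)` by finite powers (Q1), preservation of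
`S_fin(D_Ω, D_Ω)` by finite powers (Q2) and the nonexistence of free Suslin trees are equivalent.
They hold under Martin's axiom at `ℵ₁` and they fail under Jensen's diamond, and there are models
of ZFC in which these axioms (as sentences of the language of set theory) hold.

The notions `ModelsZFC E` (`Pool/Agent/Lib/H5Z/Defs.lean`), `MAIn E`
(`Pool/Agent/Lib/H30C/Defs.lean`) and `DiaIn E` (`Pool/Agent/Lib/H96D/Defs.lean`) are statements
about a structure `(M, E)` for the language of set theory.
-/

set_option autoImplicit false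

namespace Pool.Agent.Results.MP_9098dd_gt.PowersIffNoFreeSuslin

open Set Pool.Agent.H85.Sel Pool.Agent.H94.Dia

universe u

/-- The positive answer to Q1, for spaces in the universe `Type u`: every finite power of a space
satisfying `S_1(D_Ω, D_Ω)` satisfies `S_1(D_Ω, D_Ω)`. -/
def Q1 : Prop :=
  ∀ (X : Type u) [TopologicalSpace X], SOne (DOmega X) (DOmega X) →
    ∀ k : ℕ, 1 ≤ k → SOne (DOmega (Fin k → X)) (DOmega (Fin k → X))

/-- The positive answer to Q2, for spaces in the universe `Type u`: every finite power of a space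
satisfying `S_fin(D_Ω, D_Ω)` satisfies `S_fin(D_Ω, D_Ω)`. -/
def Q2 : Prop :=
  ∀ (X : Type u) [TopologicalSpace X], SFin (DOmega X) (DOmega X) →
    ∀ k : ℕ, 1 ≤ k → SFin (DOmega (Fin k → X)) (DOmega (Fin k → X))

/-- There is a free Suslin tree. -/
def ExistsFreeSuslinTree : Prop :=
  ∃ (T : Type) (_ : PartialOrder T) (ht : T → Ordinal.{0}), IsFreeSuslinTree T ht

/-- The equivalence: the first statement is the nonexistence of free Suslin trees, the fourth the
strongest and the last the weakest of the topological statements. -/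
theorem tfae :
    List.TFAE [
      ¬ ExistsFreeSuslinTree,
      Q1.{u},
      Q2.{u},
      ∀ (X : Type u) [TopologicalSpace X], SFin (DOmega X) (DOmega X) → CCC (Fin 2 → X),
      ∀ (X : Type u) [TopologicalSpace X], T2Space X →
        TopologicalSpace.IsTopologicalBasis {s : Set X | IsClopen s} →
        SOne (DOmega X) (DOmega X) → SFin (DOmega (Fin 2 → X)) (DOmega (Fin 2 → X))] := by
  tfae_have 1 → 4 := by
    intro h X _ hX
    by_contra hnot
    exact h (H94.Sel.exists_isFreeSuslinTree hX hnot)
  tfae_have 4 → 2 := by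
    intro hc X _ h k _
    rcases isEmpty_or_nonempty X with hX | hX
    · intro U hU
      exfalso
      have hs : Subsingleton (Fin k → X) := inferInstance
      rcases isEmpty_or_nonempty (Fin k → X) with he | hne
      · obtain ⟨u, hu, _⟩ := (hU 0).2.2 ∅ finite_empty (by simp)
        exact (hU 0).2.1 u hu (fun x _ => he.elim x)
      · obtain ⟨u, hu, hu'⟩ := (hU 0).2.2 {univ} (finite_singleton _) (by simp)
        obtain ⟨x, hx, _⟩ := hu' univ (mem_singleton _)
        exact (hU 0).2.1 u hu (fun y _ => by
          rw [Subsingleton.elim y x]; exact subset_closure hx)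
    · have hc : CCC (Fin 2 → X) := hc X h.sfin
      exact SOne_DOmega_of_powers (fun r => SOne_DD_all h hc (Fin r × Fin k))
  tfae_have 4 → 3 := by
    intro hc X _ h k _
    exact SFin_DOmega_of_powers (fun r => SFin_DD_all h (hc X h) (Fin r × Fin k))
  tfae_have 2 → 5 := by
    intro h X _ _ _ hX
    exact (h X hX 2 (by norm_num)).sfin
  tfae_have 3 → 5 := by
    intro h X _ _ _ hX
    exact h X hX.sfin 2 (by norm_num)
  tfae_have 5 → 1 := by
    rintro h ⟨T, _, ht, hT⟩
    have e : Branch T ≃ₜ ULift.{u} (Branch T) := Homeomorph.ulift.symm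
    have hs : SFin (DOmega (Fin 2 → ULift.{u} (Branch T)))
        (DOmega (Fin 2 → ULift.{u} (Branch T))) := by
      refine h (ULift.{u} (Branch T)) ?_ ?_ (H94.Sel.SOne.homeo e (hT.sOne (Branch.treeBase hT)))
      · have := Branch.t2 hT
        exact e.symm.isEmbedding.t2Space
      · have h1 := (Branch.zeroDim hT).isInducing e.symm.isInducing
        refine TopologicalSpace.isTopologicalBasis_of_isOpen_of_nhds (fun s hs => hs.isOpen) ?_
        intro a s ha hs
        obtain ⟨t, ht1, ht2, ht3⟩ := h1.exists_subset_of_mem_open ha hs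
        obtain ⟨t', ht', rfl⟩ := ht1
        exact ⟨_, IsClopen.preimage ht' e.symm.continuous, ht2, ht3⟩
    have h2 := H94.Sel.CCC.homeo (Homeomorph.piCongrRight (fun _ : Fin 2 => e.symm)) hs.ccc
    exact hT.not_ccc (Branch.treeBase hT) h2
  tfae_finish

/-- Martin's axiom refutes free Suslin trees. -/
theorem no_tree_of_MA (hMA : MartinAxiomAlephOne) : ¬ ExistsFreeSuslinTree := by
  rintro ⟨T, _, ht, hT⟩
  exact hT.not_ccc (Branch.treeBase hT)
    (ccc_square_of_MA hMA (Branch T) (hT.sOne (Branch.treeBase hT)).sfin.ccc)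

/-- (I) The following are equivalent (in ZFC, and for spaces `X` in any universe):
(1) there is no free Suslin tree;
(2) `S_1(D_Ω, D_Ω)` is preserved by finite powers (a positive answer to Q1);
(3) `S_fin(D_Ω, D_Ω)` is preserved by finite powers (a positive answer to Q2);
(4) the square of every space satisfying `S_fin(D_Ω, D_Ω)` is ccc;
(5) the square of every zero-dimensional Hausdorff space satisfying `S_1(D_Ω, D_Ω)` satisfies
`S_fin(D_Ω, D_Ω)`.
(II) There is a model of ZFC which satisfies Martin's axiom `MA_{ℵ₁}`; if the universe of sets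
satisfies it, then both questions have a positive answer.
(III) There is a model of ZFC which satisfies Jensen's principle `◇`; if the universe of sets
satisfies it, then both questions have a negative answer. -/
theorem result :
    List.TFAE [
      ¬ ExistsFreeSuslinTree,
      Q1.{u},
      Q2.{u},
      ∀ (X : Type u) [TopologicalSpace X], SFin (DOmega X) (DOmega X) → CCC (Fin 2 → X),
      ∀ (X : Type u) [TopologicalSpace X], T2Space X →
        TopologicalSpace.IsTopologicalBasis {s : Set X | IsClopen s} →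
        SOne (DOmega X) (DOmega X) → SFin (DOmega (Fin 2 → X)) (DOmega (Fin 2 → X))] ∧
    ((∃ (M : Type 1) (E : M → M → Prop), H5Z.ModelsZFC E ∧ H30C.MAIn E) ∧
      (H30C.MAIn (fun x y : ZFSet.{0} => x ∈ y) → Q1.{u} ∧ Q2.{u})) ∧
    ((∃ (M : Type 1) (E : M → M → Prop), H5Z.ModelsZFC E ∧ H96D.DiaIn E) ∧
      (H96D.DiaIn (fun x y : ZFSet.{0} => x ∈ y) → ¬ Q1.{u} ∧ ¬ Q2.{u})) := by
  refine ⟨tfae, ⟨H30C.exists_ma_model, fun hM => ?_⟩, ⟨H96D.exists_diamond_model, fun hD => ?_⟩⟩
  · have h := no_tree_of_MA (H30C.ma_of_in hM)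
    exact ⟨((tfae.{u}).out 0 1).1 h, ((tfae.{u}).out 0 2).1 h⟩
  · have h : ExistsFreeSuslinTree :=
      exists_freeSuslin_of_diamond (H96D.diamond_of_diaIn hD)
    have h1 : Q1.{u} → ¬ ExistsFreeSuslinTree := ((tfae.{u}).out 0 1).2
    have h2 : Q2.{u} → ¬ ExistsFreeSuslinTree := ((tfae.{u}).out 0 2).2
    exact ⟨fun h' => h1 h' h, fun h' => h2 h' h⟩

end Pool.Agent.Results.MP_9098dd_gt.PowersIffNoFreeSuslin
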