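import Mathlib
import Pool.Agent.H85.SelDefs
import Pool.Agent.H85.SelLemmas
import Pool.Agent.H85.SelMain

/-!
# Finite powers and `S_fin(D_Ω, D_Ω)`

The collections `D` and `D_Ω`, the selection principle `S_fin` and the countable chain condition
are declared in `Pool/Agent/H85/SelDefs.lean`; `X ^ k` is the type `Fin k → X` with the product
topology.
-/

set_option autoImplicit false

namespace Pool.Agent.Results.MP_9098dd_gt.PowersSFin

open Set Pool.Agent.H85.Sel

universe u

/-- Let `X` be a topological space satisfying `S_fin(D_Ω, D_Ω)`. Then the following are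
equivalent: the square of `X` is ccc; every finite power of `X` is ccc; the square of `X` satisfies
`S_fin(D_Ω, D_Ω)`; every finite power of `X` satisfies `S_fin(D_Ω, D_Ω)`; every finite power of
`X` satisfies `S_fin(D, D)`. -/
theorem result (X : Type u) [TopologicalSpace X] (h : SFin (DOmega X) (DOmega X)) :
    List.TFAE [
      CCC (Fin 2 → X),
      ∀ k : ℕ, CCC (Fin k → X),
      SFin (DOmega (Fin 2 → X)) (DOmega (Fin 2 → X)),
      ∀ k : ℕ, SFin (DOmega (Fin k → X)) (DOmega (Fin k → X)),
      ∀ k : ℕ, SFin (DD (Fin k → X)) (DD (Fin k → X))] := by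
  tfae_have 1 → 5 := fun hc k => SFin_DD_all h hc (Fin k)
  tfae_have 5 → 2 := fun h5 k => (h5 k).ccc'
  tfae_have 2 → 1 := fun h2 => h2 2
  tfae_have 1 → 4 := fun hc k => SFin_DOmega_of_powers (fun r => SFin_DD_all h hc (Fin r × Fin k))
  tfae_have 4 → 3 := fun h4 => h4 2
  tfae_have 3 → 1 := fun h3 => h3.ccc
  tfae_finish

end Pool.Agent.Results.MP_9098dd_gt.PowersSFin
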