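import Mathlib
import Pool.Agent.H85.SelDefs
import Pool.Agent.H85.SelLemmas
import Pool.Agent.H85.SelMain

/-!
# Finite powers and `S_1(D_Ω, D_Ω)`

The collections `D` and `D_Ω`, the selection principle `S_1` and the countable chain condition
are declared in `Pool/Agent/H85/SelDefs.lean`; `X ^ k` is the type `Fin k → X` with the product
topology.
-/

set_option autoImplicit false

namespace Pool.Agent.Results.MP_9098dd_gt.PowersSOne

open Set Pool.Agent.H85.Sel

universe u

/-- Let `X` be a topological space satisfying `S_1(D_Ω, D_Ω)`. Then the following are equivalent: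
the square of `X` is ccc; every finite power of `X` is ccc; the square of `X` satisfies
`S_1(D_Ω, D_Ω)`; every finite power of `X` satisfies `S_1(D_Ω, D_Ω)`; (if `X` is nonempty) every
finite power of `X` satisfies `S_1(D, D)`. -/
theorem result (X : Type u) [TopologicalSpace X] (h : SOne (DOmega X) (DOmega X)) :
    List.TFAE [
      CCC (Fin 2 → X),
      ∀ k : ℕ, CCC (Fin k → X),
      SOne (DOmega (Fin 2 → X)) (DOmega (Fin 2 → X)),
      ∀ k : ℕ, SOne (DOmega (Fin k → X)) (DOmega (Fin k → X)),
      Nonempty X → ∀ k : ℕ, SOne (DD (Fin k → X)) (DD (Fin k → X))] := by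
  rcases isEmpty_or_nonempty X with hX | hX
  · -- the empty space: everything is trivially true
    have hsub : ∀ k : ℕ, Subsingleton (Fin k → X) := by
      intro k
      infer_instance
    have h4 : ∀ k : ℕ, SOne (DOmega (Fin k → X)) (DOmega (Fin k → X)) := by
      intro k U hU
      exfalso
      have hs := hsub k
      rcases isEmpty_or_nonempty (Fin k → X) with he | hne
      · obtain ⟨u, hu, _⟩ := (hU 0).2.2 ∅ finite_empty (by simp)
        exact (hU 0).2.1 u hu (fun x _ => he.elim x)
      · obtain ⟨u, hu, hu'⟩ := (hU 0).2.2 {univ} (finite_singleton _)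
          (by simpa using univ_nonempty)
        obtain ⟨x, hx, _⟩ := hu' univ (mem_singleton _)
        exact (hU 0).2.1 u hu (fun y _ => by
          rw [Subsingleton.elim y x]; exact subset_closure hx)
    have h2 : ∀ k : ℕ, CCC (Fin k → X) := fun k => (h4 k).sfin.ccc
    apply List.tfae_of_forall True
    intro p hp
    simp only [List.mem_cons, List.not_mem_nil, or_false] at hp
    rcases hp with rfl | rfl | rfl | rfl | rfl
    · exact iff_true_intro (h2 2)
    · exact iff_true_intro h2
    · exact iff_true_intro (h4 2)
    · exact iff_true_intro h4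
    · exact iff_true_intro (fun hne => absurd hX (not_isEmpty_iff.2 hne))
  · tfae_have 1 → 5 := fun hc _ k => SOne_DD_all h hc (Fin k)
    tfae_have 5 → 2 := fun h5 k => (h5 hX k).sfin.ccc'
    tfae_have 2 → 1 := fun h2 => h2 2
    tfae_have 1 → 4 := fun hc k => SOne_DOmega_of_powers (fun r => SOne_DD_all h hc (Fin r × Fin k))
    tfae_have 4 → 3 := fun h4 => h4 2
    tfae_have 3 → 1 := fun h3 => h3.sfin.ccc
    tfae_finish

end Pool.Agent.Results.MP_9098dd_gt.PowersSOne
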